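import Pool.Agent.Helper96.Ab.Goals
import Pool.Agent.Helper16.Abund.Trace3

/-! Packet D of helper96's normal version: local `ℓ¹` bound for the values over the fibres. -/

open scoped Manifold ContDiff ENNReal Topology
open MeasureTheory Metric
open Pool.Agent.Helper16.Abund Pool.Agent.Helper96.Ab

namespace Pool.Agent.Helper59.Ab

universe u

theorem stmtD : StmtD.{u} := by
  classical
  intro n M Y _ _ _ _ _ _ p m r L l q η w Ω hcov hloc hq hqL hrl hη hLq hΩ hw hw0 z₀ hz₀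
  obtain ⟨U, σ, S⟩ := exists_sheets (n := n) hcov hloc z₀
  obtain ⟨ρ, hρ, u, hu, hu0, hb⟩ := exists_bound hloc hη hq hLq S
  set χ := chartAt (Fin n → ℂ) z₀ with hχ
  have hzs : z₀ ∈ χ.source := mem_chart_source _ z₀
  set V : Set (Fin n → ℂ) := χ.target ∩ χ.symm ⁻¹' Ω with hV
  have hVo : IsOpen V := χ.isOpen_inter_preimage_symm hΩ
  have hψ : MDifferentiableOn 𝓘(ℂ, Fin n → ℂ) 𝓘(ℂ, Fin n → ℂ) χ.symm V :=
    (mdiff_chart_symm z₀).mono Set.inter_subset_left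
  have hG : DifferentiableOn ℂ (fun ζ => w (χ.symm ζ) * jac n χ.symm ζ ^ r) V :=
    hw V χ.symm hVo hψ (fun ζ hζ => hζ.2)
  have hz₀V : χ z₀ ∈ V := by
    refine ⟨χ.map_source hzs, ?_⟩
    rw [Set.mem_preimage, χ.left_inv hzs]
    exact hz₀
  -- the jacobian of the chart does not vanish
  have hsymm : ∀ ζ ∈ χ.target, MDifferentiableAt 𝓘(ℂ, Fin n → ℂ) 𝓘(ℂ, Fin n → ℂ) χ.symm ζ :=
    fun ζ hζ => (mdiff_chart_symm z₀).mdifferentiableAt (χ.open_target.mem_nhds hζ)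
  have hJ : ∀ ζ ∈ χ.target, jac n χ.symm ζ ≠ 0 := by
    intro ζ ht
    have h1 : MDifferentiableAt 𝓘(ℂ, Fin n → ℂ) 𝓘(ℂ, Fin n → ℂ) χ (χ.symm ζ) :=
      (mdiff_chart z₀).mdifferentiableAt (χ.open_source.mem_nhds (χ.map_target ht))
    have := jac_mul_eq_one h1 (hsymm ζ ht) (by
      filter_upwards [χ.open_target.mem_nhds ht] with w hw
      exact χ.right_inv hw)
    intro h0
    rw [h0, mul_zero] at this
    exact zero_ne_one this
  set G : (Fin n → ℂ) → ℂ := fun ζ => w (χ.symm ζ) * jac n χ.symm ζ ^ r with hGdef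
  have hGc : ContinuousAt G (χ z₀) := hG.continuousOn.continuousAt (hVo.mem_nhds hz₀V)
  have hG0 : G (χ z₀) ≠ 0 := by
    refine mul_ne_zero (hw0 _ hz₀V.2) (pow_ne_zero _ (hJ _ hz₀V.1))
  set δ : ℝ := ‖G (χ z₀)‖ / 2 with hδdef
  have hδ : 0 < δ := half_pos (norm_pos_iff.2 hG0)
  have hev : ∀ᶠ ζ in 𝓝 (χ z₀), δ < ‖G ζ‖ :=
    hGc.norm.eventually (lt_mem_nhds (half_lt_self (norm_pos_iff.2 hG0)))
  obtain ⟨ρ', hρ', hball⟩ := Metric.eventually_nhds_iff_ball.1 hev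
  have hmin : 0 < min ρ ρ' := lt_min hρ hρ'
  have hL1 : 1 ≤ (L : ℝ) / q := by rwa [one_le_div hq]
  have hsum : Summable fun i => u i ^ ((L : ℝ) / q) / δ ^ l :=
    (summable_rpow_of_one_le hu hu0 hL1).div_const _
  refine ⟨(χ.source ∩ χ ⁻¹' ball (χ z₀) (min ρ ρ')) ∩ Ω,
    (χ.isOpen_inter_preimage isOpen_ball).inter hΩ,
    ⟨⟨hzs, mem_ball_self hmin⟩, hz₀⟩, Set.inter_subset_right,
    ∑' i, u i ^ ((L : ℝ) / q) / δ ^ l, ?_⟩
  rintro z ⟨⟨hzsrc, hzb⟩, hzΩ⟩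
  have hzb1 : χ z ∈ ball (χ z₀) ρ := ball_subset_ball (min_le_left _ _) hzb
  have hzb2 : χ z ∈ ball (χ z₀) ρ' := ball_subset_ball (min_le_right _ _) hzb
  obtain ⟨ht, hU', hbi⟩ := hb _ hzb1
  have hGz : δ < ‖w z * jac n χ.symm (χ z) ^ r‖ := by
    have := hball _ hzb2
    simp only [hGdef] at this
    rwa [χ.left_inv hzsrc] at this
  have hzU : z ∈ U := by rwa [χ.left_inv hzsrc] at hU'
  have hJz : jac n χ.symm (χ z) ≠ 0 := hJ _ ht
  have hwz : w z ≠ 0 := hw0 z hzΩ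
  -- the key estimate
  have key : ∀ i, ‖(η (σ i z) / jac n p (σ i z) ^ m) ^ L / w z ^ l‖ ≤
      u i ^ ((L : ℝ) / q) / δ ^ l := by
    intro i
    have h1 := hbi i
    rw [S.jac_comp_sheet hloc i (hsymm _ ht) hU', χ.left_inv hzsrc] at h1
    have h2 := norm_pow_le_rpow (norm_nonneg _) hq h1 L
    have hjp : jac n p (σ i z) ≠ 0 := jac_ne_zero hloc _
    have e1 : (η (σ i z) / jac n p (σ i z) ^ m) ^ L / w z ^ l =
        (η (σ i z) * (jac n χ.symm (χ z) / jac n p (σ i z)) ^ m) ^ L /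
          (w z * jac n χ.symm (χ z) ^ r) ^ l := by
      have hc : ((jac n χ.symm (χ z)) ^ r) ^ l = ((jac n χ.symm (χ z)) ^ m) ^ L := by
        rw [← pow_mul, ← pow_mul, hrl]
      rw [mul_pow (w z), hc, div_pow _ _ m]
      have hJm : ((jac n χ.symm (χ z)) ^ m) ^ L ≠ 0 := pow_ne_zero _ (pow_ne_zero _ hJz)
      rw [show η (σ i z) * (jac n χ.symm (χ z) ^ m / jac n p (σ i z) ^ m) =
        (η (σ i z) / jac n p (σ i z) ^ m) * jac n χ.symm (χ z) ^ m by ring, mul_pow]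
      rw [mul_div_mul_right _ _ hJm]
    rw [e1, norm_div, norm_pow, norm_pow]
    apply div_le_div₀ (Real.rpow_nonneg (hu0 i) _) h2 (pow_pos hδ _)
    exact pow_le_pow_left₀ hδ.le hGz.le _
  have hs1 : Summable fun i => ‖(η (σ i z) / jac n p (σ i z) ^ m) ^ L / w z ^ l‖ :=
    Summable.of_nonneg_of_le (fun i => norm_nonneg _) key hsum
  constructor
  · rw [S.summable_fibre hzU (fun y => (η y / jac n p y ^ m) ^ L / w z ^ l)]
    exact hs1.of_norm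
  · rw [S.tsum_fibre hzU (fun y => ‖(η y / jac n p y ^ m) ^ L / w z ^ l‖)]
    exact hs1.tsum_le_tsum key hsum

end Pool.Agent.Helper59.Ab

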